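import Pool.Agent.Lib.MP_db8568_gt.Main

/-!
There is a model of ZFC containing a hereditarily normal surface that is not countably
paracompact.
-/

namespace Pool.Agent.Results.MP_db8568_gt.Consistent

open Pool.Agent.Lib.MP_5d9fac_lc Pool.Agent.Lib.MP_db8568_gt

theorem result : ∃ (M : Type 1) (E : M → M → Prop), IsZFC E ∧ ∃ X T L R : M, IsTop E X T ∧
    IsT2 E X T ∧ IsLine E L R ∧ LocPlane E X T L R ∧ HerNormal E X T ∧
    ¬ CtblyParacompact E X T := main

end Pool.Agent.Results.MP_db8568_gt.Consistent
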